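import Pool.Agent.H57.TB.Fam

set_option autoImplicit false

open Polynomial

namespace Pool.Agent.Results.MP_821da1_nt.ProductsEqualToPowers

/-- `f(x, y)` is monic of degree `b` in `x`, and all its other monomials have smaller weight than
`x ^ b`, where `x` has the weight `n` and `y` has the weight `m`. -/
def LeadingPower (m n b : ℕ) (f : MvPolynomial (Fin 2) ℤ) : Prop :=
  f.coeff (Finsupp.single 0 b) = 1 ∧
    ∀ k ∈ f.support, k ≠ Finsupp.single 0 b → n * k 0 + m * k 1 < n * b

/-- The polynomial `h(y)` in the two variables `x`, `y`. -/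
noncomputable def inY (h : ℤ[X]) : MvPolynomial (Fin 2) ℤ :=
  aeval (MvPolynomial.X 1 : MvPolynomial (Fin 2) ℤ) h

/-- The affine plane curve `F = 0` is nonsingular: the polynomials `F`, `∂F/∂x`, `∂F/∂y` generate
the unit ideal of `ℚ[x, y]`, that is, they have no common complex zero. -/
def Nonsingular (F : MvPolynomial (Fin 2) ℤ) : Prop :=
  Ideal.span ({MvPolynomial.map (Int.castRingHom ℚ) F,
    MvPolynomial.pderiv 0 (MvPolynomial.map (Int.castRingHom ℚ) F),
    MvPolynomial.pderiv 1 (MvPolynomial.map (Int.castRingHom ℚ) F)} :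
      Set (MvPolynomial (Fin 2) ℚ)) = ⊤

/-- Let `p` be a prime number and let `m` be prime to `p q`. The integer points of the nonsingular
curves `f₀(x, y) ⋯ f_r(x, y) = h(y) ^ p` with `f_i` monic of degree `b_i` in `x`, with `h` monic of
degree `q`, with `m = b₀ + ⋯ + b_r` and with the `f_i` having leading forms `x ^ b_i` for the weights
`p q` of `x` and `m` of `y`, are bounded by a polynomial in the coefficients which depends only on
`p`, `q`, `m`, if some nonzero integer `e` with fewer than `r` prime factors lies in all the ideals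
`(f_i, f_j, h)` of `ℤ[x, y]` with `i ≠ j` (for every prime `l` that does not divide `e`, no two of
the `f_i` have a common zero with `h` in characteristic `l`). -/
theorem result (p q m : ℕ) (hp : p.Prime) (hq : 1 ≤ q) (hm : Nat.Coprime m (p * q)) :
    ∃ C : ℕ, ∀ (r : ℕ) (b : Fin (r + 1) → ℕ) (f : Fin (r + 1) → MvPolynomial (Fin 2) ℤ)
      (h : ℤ[X]) (e : ℤ) (N : ℕ),
      (∀ i, 1 ≤ b i) → ∑ i, b i = m → (∀ i, LeadingPower m (p * q) (b i) (f i)) →
      h.Monic → h.natDegree = q → Nonsingular (∏ i, f i - inY h ^ p) →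
      e ≠ 0 → e.natAbs.primeFactors.card < r →
      (∀ i j, i ≠ j → MvPolynomial.C e ∈
        Ideal.span ({f i, f j, inY h} : Set (MvPolynomial (Fin 2) ℤ))) →
      (∀ i k, ((f i).coeff k).natAbs ≤ N) → (∀ j, (h.coeff j).natAbs ≤ N) →
      ∀ x y : ℤ, ∏ i, MvPolynomial.eval ![x, y] (f i) = h.eval y ^ p →
        max x.natAbs y.natAbs ≤ (C * N) ^ C := by
  obtain ⟨C, hC⟩ := Pool.Agent.H57.TB.family p q m hp hq hm
  refine ⟨C, ?_⟩
  intro r b f h e N h1 h2 h3 h4 h5 h6 h7 h8 h9 h10 h11
  exact hC r b f h e N h1 h2 (fun i => (h3 i).1) (fun i => (h3 i).2) h4 h5 h6 h9 h7 h8 h10 h11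

end Pool.Agent.Results.MP_821da1_nt.ProductsEqualToPowers
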