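import Pool.Agent.H51.TO.Engine

/-!
Integer points on the plane curves with exactly one place at infinity, rational, that touch a line
to an order divisible by an odd number `n` at each common point: one constant for all the curves and
all the points at which the bad primes dividing `y` belong to a given finite set.
-/

set_option autoImplicit false

namespace Pool.Agent.Results.MP_821da1_nt.TangentLineCommonPrimes

/-- Let `n ≥ 3` be odd, `k, δ ≥ 1`, `gcd(k, n) = 1`. There is a `C` depending only on `n, k, δ` and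
for every finite set `S` of primes a `c` such that the following holds for all `F ∈ ℤ[x, y]` with
(1) `F = y ^ k - x ^ (n δ) +` terms `x ^ i y ^ j` with `k i + n δ j < n δ k`;
(2) `F(x, 0) = -D(x) ^ n` with `D ∈ ℤ[x]`;
(3) `b ∈ ℤ` lies in the ideal of `ℤ[x]` generated by `D(x)` and `F_y(x, 0)`;
(4) `F(x, a z ^ n)` is irreducible over `ℚ` for all integers `a ≠ 0`.
Every integer point `(x, y)` on `F = 0` for which all common prime factors of `y` and `b` belong to
`S` has `max(|x|, |y|) ≤ (c len F) ^ C`, `len F` the sum of the absolute values of the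
coefficients. -/
theorem result (n k δ : ℕ) (hn : 3 ≤ n) (hodd : Odd n) (hk : 1 ≤ k) (hδ : 1 ≤ δ)
    (hkn : Nat.Coprime k n) :
    ∃ C : ℕ, ∀ S : Finset ℕ, ∃ c : ℕ, ∀ (F : MvPolynomial (Fin 2) ℤ) (D U V : Polynomial ℤ)
      (b : ℤ),
      (∀ s ∈ (F - MvPolynomial.X 1 ^ k + MvPolynomial.X 0 ^ (n * δ)).support,
        k * s 0 + (n * δ) * s 1 < (n * δ) * k) →
      MvPolynomial.aeval ![Polynomial.X, (0 : Polynomial ℤ)] F = - D ^ n →
      U * D + V * MvPolynomial.aeval ![Polynomial.X, (0 : Polynomial ℤ)]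
        (MvPolynomial.pderiv 1 F) = Polynomial.C b →
      (∀ a : ℤ, a ≠ 0 → Irreducible (MvPolynomial.map (Int.castRingHom ℚ)
        (MvPolynomial.aeval ![MvPolynomial.X 0, MvPolynomial.C a * MvPolynomial.X 1 ^ n] F :
          MvPolynomial (Fin 2) ℤ))) →
      ∀ x y : ℤ, MvPolynomial.eval ![x, y] F = 0 →
        (∀ q : ℕ, q.Prime → (q : ℤ) ∣ y → (q : ℤ) ∣ b → q ∈ S) →
        max x.natAbs y.natAbs ≤ (c * ∑ m ∈ F.support, (F.coeff m).natAbs) ^ C :=
  Pool.Agent.H51.TO.commonOdd n k δ hn hodd hk hδ hkn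

end Pool.Agent.Results.MP_821da1_nt.TangentLineCommonPrimes
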