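import Pool.Agent.H57.TB.Main

set_option autoImplicit false

namespace Pool.Agent.Results.MP_821da1_nt.TorsionRank

/-- The length of an integer polynomial: the sum of the absolute values of its coefficients. -/
def len (F : MvPolynomial (Fin 2) ℤ) : ℕ := ∑ m ∈ F.support, (F.coeff m).natAbs

/-- The coordinate ring over `ℚ` of the affine plane curve `F = 0`. -/
abbrev CoordRing (F : MvPolynomial (Fin 2) ℤ) : Type :=
  MvPolynomial (Fin 2) ℚ ⧸ Ideal.span {MvPolynomial.map (Int.castRingHom ℚ) F}

/-- `A` is a place at infinity of the curve `F = 0`: a valuation ring of its function field `L`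
that contains `ℚ` but not both coordinate functions. -/
def AtInfinity (F : MvPolynomial (Fin 2) ℤ) (L : Type) [Field L] [Algebra (CoordRing F) L]
    (A : ValuationSubring L) : Prop :=
  (∀ q : ℚ, algebraMap (CoordRing F) L (algebraMap ℚ (CoordRing F) q) ∈ A) ∧
    ∃ i : Fin 2, algebraMap (CoordRing F) L (Ideal.Quotient.mk _ (MvPolynomial.X i)) ∉ A

/-- The element of the function field `L` of the curve `F = 0` given by the polynomial `f`. -/
noncomputable def fn (F : MvPolynomial (Fin 2) ℤ) (L : Type) [Field L] [Algebra (CoordRing F) L]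
    (f : MvPolynomial (Fin 2) ℤ) : L :=
  algebraMap (CoordRing F) L
    (Ideal.Quotient.mk _ (MvPolynomial.map (Int.castRingHom ℚ) f))

/-- `f` is a torsion function of exponent `p` on the curve `F = 0` outside of the primes in `S`:
for some polynomials `g`, `h` and some integer `a` we have `f g = a h ^ p` on the curve, and for
every prime `l` not in `S` the prime `l` does not divide `a` and `l`, `F`, `f`, `g`, `h` generate
the unit ideal of `ℤ[x, y]`. (So `f` generates the `p`-th power of the ideal `(f, h)` of the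
coordinate ring over the integers with the primes in `S` inverted.) -/
def Torsion (p : ℕ) (S : Finset ℕ) (F f : MvPolynomial (Fin 2) ℤ) : Prop :=
  ∃ (a : ℤ) (g h : MvPolynomial (Fin 2) ℤ), F ∣ f * g - MvPolynomial.C a * h ^ p ∧
    ∀ l : ℕ, l.Prime → l ∉ S → ¬ (l : ℤ) ∣ a ∧
      Ideal.span ({MvPolynomial.C (l : ℤ), F, f, g, h} : Set (MvPolynomial (Fin 2) ℤ)) = ⊤

/-- The `f_i` are independent modulo the rational constants and the `p`-th powers of functions: no
product `∏ f_i ^ k_i` with `0 ≤ k_i < p` and some `k_i ≠ 0` is `c y ^ p` with `c` a nonzero rational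
number and `y` in the function field `L` of the curve `F = 0`. -/
def Independent (p : ℕ) (F : MvPolynomial (Fin 2) ℤ) {r : ℕ} (f : Fin r → MvPolynomial (Fin 2) ℤ)
    (L : Type) [Field L] [Algebra (CoordRing F) L] : Prop :=
  ∀ k : Fin r → ℕ, (∀ i, k i < p) → (∃ i, k i ≠ 0) → ∀ (c : ℚ) (y : L), c ≠ 0 →
    ∏ i, fn F L (f i) ^ k i ≠ algebraMap (CoordRing F) L (algebraMap ℚ (CoordRing F) c) * y ^ p

/-- More independent torsion functions than bad primes: let `f₁, …, f_r` be torsion functions of
prime exponent `p` on the irreducible plane curve `F = 0` outside of the primes in `S`, independent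
modulo constants and `p`-th powers, such that at one place `A` at infinity each of them is a `p`-th
power times a function with the value `γ_i`, a nonzero integer with all its prime factors in `S`.
If `S` has fewer than `r` elements, then the integer points of the curve are bounded by a polynomial
in the coefficients of `F` and of the `f_i` and in the `γ_i` which depends only on `p`, `r` and the
degrees. -/
theorem result (p D r : ℕ) (hp : p.Prime) :
    ∃ C : ℕ, ∀ (S : Finset ℕ) (F : MvPolynomial (Fin 2) ℤ)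
      (f : Fin r → MvPolynomial (Fin 2) ℤ) (γ : Fin r → ℤ) (N : ℕ),
      S.card < r → F.totalDegree ≤ D → len F ≤ N →
      (∀ i, (f i).totalDegree ≤ D ∧ len (f i) ≤ N ∧ (γ i).natAbs ≤ N) →
      Irreducible (MvPolynomial.map (Int.castRingHom ℚ) F) →
      (∀ i, Torsion p S F (f i)) →
      (∀ i, γ i ≠ 0 ∧ ∀ l : ℕ, l.Prime → (l : ℤ) ∣ γ i → l ∈ S) →
      ∀ (L : Type) [Field L] [Algebra (CoordRing F) L] [IsFractionRing (CoordRing F) L],
      Independent p F f L →
      ∀ A : ValuationSubring L, AtInfinity F L A →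
      ∀ (t : Fin r → L) (w : Fin r → A), (∀ i, (w i : L) = fn F L (f i) * t i ^ p) →
      (∀ i, IsLocalRing.residue A (w i) = (γ i : IsLocalRing.ResidueField A)) →
      ∀ x y : ℤ, MvPolynomial.eval ![x, y] F = 0 → max x.natAbs y.natAbs ≤ (C * N) ^ C := by
  obtain ⟨C, hC⟩ := Pool.Agent.H57.TB.main p D r hp
  refine ⟨C, ?_⟩
  intro S F f γ N hS hFD hFN hf hirr hT hγ L _ _ _ hind A hA t w hw hres x y hxy
  have : Nontrivial (CoordRing F) := (algebraMap (CoordRing F) L).domain_nontrivial
  let _ : Algebra ℚ L :=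
    ((algebraMap (CoordRing F) L).comp (algebraMap ℚ (CoordRing F))).toAlgebra
  obtain ⟨π, hπ⟩ : ∃ π : MvPolynomial (Fin 2) ℚ →ₐ[ℚ] L, ∀ w, π w
      = algebraMap (CoordRing F) L (Ideal.Quotient.mk _ w) :=
    ⟨{ toRingHom := (algebraMap (CoordRing F) L).comp (Ideal.Quotient.mk _)
       commutes' := fun q => rfl }, fun w => rfl⟩
  have hker : ∀ w, π w = 0 ↔ MvPolynomial.map (Int.castRingHom ℚ) F ∣ w := by
    intro w
    rw [hπ, IsFractionRing.to_map_eq_zero_iff, Ideal.Quotient.eq_zero_iff_mem,
      Ideal.mem_span_singleton]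
  have hsurj : ∀ z : L, ∃ w1 w2, π w2 ≠ 0 ∧ π w2 * z = π w1 := by
    intro z
    obtain ⟨a, s, hs, hz⟩ := IsFractionRing.div_surjective (A := CoordRing F) z
    obtain ⟨w1, rfl⟩ := Ideal.Quotient.mk_surjective a
    obtain ⟨w2, rfl⟩ := Ideal.Quotient.mk_surjective s
    have hne : π w2 ≠ 0 := by
      rw [hπ]
      exact IsFractionRing.to_map_ne_zero_of_mem_nonZeroDivisors hs
    refine ⟨w1, w2, hne, ?_⟩
    rw [← hz, ← hπ, ← hπ]
    exact mul_div_cancel₀ _ hne
  have hfn : ∀ i, π (MvPolynomial.map (Int.castRingHom ℚ) (f i)) = fn F L (f i) := fun i => hπ _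
  choose a g h h1 h2 using hT
  refine hC S F f g h a γ N hFD (fun i => (hf i).1) hFN (fun i => (hf i).2.1)
    (fun i => (hf i).2.2) hirr h1 (fun i => (hγ i).1)
    (fun i l hl hlS => ⟨(h2 i l hl hlS).2, (h2 i l hl hlS).1, ?_⟩) hS L π hker hsurj ?_ A hA.1 ?_ t w
    (fun i => by rw [hfn]; exact hw i) hres x y hxy
  · have : Fact l.Prime := ⟨hl⟩
    rw [padicValInt.eq_zero_of_not_dvd fun h => hlS ((hγ i).2 l hl h)]
    exact dvd_zero _
  · intro k hk hk0 c z hc hz
    apply hind k hk hk0 c⁻¹ z (inv_ne_zero hc)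
    have hcL : algebraMap ℚ L c ≠ 0 := (map_ne_zero _).2 hc
    have h3 : algebraMap (CoordRing F) L (algebraMap ℚ (CoordRing F) c⁻¹) =
        (algebraMap ℚ L c)⁻¹ := map_inv₀ (algebraMap ℚ L) c
    rw [h3, hz, inv_mul_cancel_left₀ hcL]
    exact Finset.prod_congr rfl fun i _ => by rw [hfn]
  · rintro ⟨hx, hy⟩
    obtain ⟨i, hi⟩ := hA.2
    rw [hπ] at hx hy
    fin_cases i
    · exact hi hx
    · exact hi hy

end Pool.Agent.Results.MP_821da1_nt.TorsionRank
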